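import Pool.Agent.Helper11.PC.Defs

/-! # Packet FPC of project PC (MP_1f931d_al)

A finitely generated group with finitely many finitely presented subgroups is the image of a
finitely presented group to which the inclusions of the subgroups lift. -/

namespace Pool.Agent.Helper29.PC

universe u v w

theorem fpc_aux {H : Type u} [Group H] : ∀ {k : ℕ} (K : Fin k → Subgroup H)
    (_ : ∀ i, Group.IsFinitelyPresented (K i)),
    ∃ (Q : Type) (_ : Group Q) (q : Q →* H) (j : ∀ i, K i →* Q), Group.IsFinitelyPresented Q ∧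
      ∀ i (x : K i), q (j i x) = x := by
  intro k
  induction k with
  | zero =>
    intro K _
    exact ⟨Unit, inferInstance, 1, fun i => i.elim0, inferInstance, fun i => i.elim0⟩
  | succ k ih =>
    intro K hK
    obtain ⟨Q', _, q', j', hQ', hj'⟩ := ih (fun i => K i.succ) (fun i => hK i.succ)
    haveI := hK 0
    obtain ⟨n, s, hs, ⟨φ⟩⟩ :=
      Group.IsFinitelyPresented.exists_mulEquiv_presentedGroup (G := K 0)
    haveI : Finite s := hs
    haveI := hQ'
    refine ⟨Monoid.Coprod (PresentedGroup s) Q', inferInstance,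
      Monoid.Coprod.lift ((K 0).subtype.comp φ.symm.toMonoidHom) q',
      Fin.cases (motive := fun i => K i →* Monoid.Coprod (PresentedGroup s) Q')
        ((Monoid.Coprod.inl).comp φ.toMonoidHom) (fun i => (Monoid.Coprod.inr).comp (j' i)),
      inferInstance, ?_⟩
    intro i
    refine Fin.cases ?_ (fun i => ?_) i
    · intro x
      simp
    · intro x
      simpa using hj' i x

/-- Packet FPC. -/
theorem fpc {H : Type u} [Group H] (hH : Group.FG H) {k : ℕ} (K : Fin k → Subgroup H)
    (hK : ∀ i, Group.IsFinitelyPresented (K i)) :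
    ∃ (Q : Type) (_ : Group Q) (q : Q →* H) (j : ∀ i, K i →* Q), Group.IsFinitelyPresented Q ∧
      Function.Surjective q ∧ ∀ i (x : K i), q (j i x) = x := by
  obtain ⟨Q', _, q', j', hQ', hj'⟩ := fpc_aux K hK
  obtain ⟨α, _, f, hf⟩ := Group.fg_iff_exists_freeGroup_hom_surjective_finite.1 hH
  haveI := hQ'
  refine ⟨Monoid.Coprod (FreeGroup α) Q', inferInstance, Monoid.Coprod.lift f q',
    fun i => (Monoid.Coprod.inr).comp (j' i), inferInstance, ?_, ?_⟩
  · intro h
    obtain ⟨x, rfl⟩ := hf h
    exact ⟨Monoid.Coprod.inl x, by simp⟩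
  · intro i x
    simpa using hj' i x

end Pool.Agent.Helper29.PC
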